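import Pool.Agent.KS6_17.BF.Good

/-!
# Claw-free graphs all of whose induced subgraphs with few bends are almost cliques (MP_fe8c60_co)

The library answers Q1 (the bend-number is unbounded on claw-free graphs, even at least
`c n / log n` for some cobipartite graphs on `n` vertices). Here it is shown that this cannot be
repaired by passing to induced subgraphs: in almost every cobipartite graph with two cliques with
`m` vertices, every induced subgraph with a `k`-bend representation has less than
`28 (k + 1) log₂ (2 m)` vertices in one of the two cliques, simultaneously for all `k`.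
-/

open Pool.Agent.Results.MP_fe8c60_co.Unbounded Pool.Agent.KS6_17.BE Pool.Agent.KS6_17.BF in
/-- (1) Let `m ≥ 1`. Among the `2 ^ (m ^ 2)` relations `R` on `Fin m` at most the fraction
`(2 m) ^ (-100)` are such that for some `k` and some set `S` of vertices of the cobipartite graph of
`R` the subgraph induced by `S` has a `k`-bend EPG representation, although `S` has at least
`28 (k + 1) log₂ (2 m)` vertices in both cliques.
(2) For every `m ≥ 1` there is a claw-free graph on `Fin m ⊕ Fin m`, the two parts of which are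
cliques, such that every induced subgraph with a `k`-bend EPG representation (`k` arbitrary) has
less than `28 (k + 1) log₂ (2 m)` vertices in one of the two parts; in particular
`m < 28 (k + 1) log₂ (2 m)` if the graph itself has a `k`-bend EPG representation.
(3) Let `p, q ≥ 1` and `18 (p + q) (k + 1) log₂ (p + q) ≤ p q`. The number of the relations `R`
between `Fin p` and `Fin q` for which the cobipartite graph of `R` has a `k`-bend EPG representation
is at most the square root of the number `2 ^ (p q)` of all relations. -/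
theorem Pool.Agent.Results.MP_fe8c60_co.FewBendSubgraphs.result :
    (∀ m : ℕ, 1 ≤ m →
      ({R : Fin m → Fin m → Prop | ∃ (k : ℕ) (S : Set (Fin m ⊕ Fin m)),
        HasEPG ((cobip R).induce S) k ∧
        28 * ((k : ℝ) + 1) * Real.logb 2 (2 * m) ≤ (Sum.inl ⁻¹' S : Set (Fin m)).ncard ∧
        28 * ((k : ℝ) + 1) * Real.logb 2 (2 * m) ≤ (Sum.inr ⁻¹' S : Set (Fin m)).ncard}.ncard : ℝ)
          * (2 * m) ^ 100 ≤ 2 ^ (m * m) ∧
      Nat.card (Fin m → Fin m → Prop) = 2 ^ (m * m) ∧
      ∀ R : Fin m → Fin m → Prop, ClawFree (cobip R)) ∧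
    (∀ m : ℕ, 1 ≤ m → ∃ G : SimpleGraph (Fin m ⊕ Fin m), ClawFree G ∧
      (∀ a b : Fin m, a ≠ b → G.Adj (Sum.inl a) (Sum.inl b) ∧ G.Adj (Sum.inr a) (Sum.inr b)) ∧
      (∀ (k : ℕ) (S : Set (Fin m ⊕ Fin m)), HasEPG (G.induce S) k →
        ((Sum.inl ⁻¹' S : Set (Fin m)).ncard : ℝ) < 28 * ((k : ℝ) + 1) * Real.logb 2 (2 * m) ∨
        ((Sum.inr ⁻¹' S : Set (Fin m)).ncard : ℝ) < 28 * ((k : ℝ) + 1) * Real.logb 2 (2 * m)) ∧
      ∀ k : ℕ, HasEPG G k → (m : ℝ) < 28 * ((k : ℝ) + 1) * Real.logb 2 (2 * m)) ∧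
    ∀ p q k : ℕ, 1 ≤ p → 1 ≤ q →
      18 * ((p : ℝ) + q) * (k + 1) * Real.logb 2 (p + q) ≤ p * q →
      ({R : Fin p → Fin q → Prop | HasEPG (cobip R) k}.ncard : ℝ) ≤ Real.sqrt (2 ^ (p * q)) := by
  refine ⟨fun m hm => ⟨?_, card_rel m, fun R => claw' _ (no_indep R)⟩, fun m hm => ?_,
    fun p q k hp hq h => Real.le_sqrt_of_sq_le (few hp hq h)⟩
  · have h := sparse_all hm
    have e : {R : Fin m → Fin m → Prop | ∃ (k : ℕ) (S : Set (Fin m ⊕ Fin m)),
        HasEPG ((cobip R).induce S) k ∧
        28 * ((k : ℝ) + 1) * Real.logb 2 (2 * m) ≤ (Sum.inl ⁻¹' S : Set (Fin m)).ncard ∧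
        28 * ((k : ℝ) + 1) * Real.logb 2 (2 * m) ≤ (Sum.inr ⁻¹' S : Set (Fin m)).ncard} =
        {R | ¬ Sparse R} := by
      ext R
      simp only [Set.mem_setOf_eq, Sparse]
      push Not
      rfl
    rw [e]
    exact h
  · obtain ⟨R, hR⟩ := exists_sparse hm
    refine ⟨cobip R, claw' _ (no_indep R), fun a b hab => ⟨?_, ?_⟩, hR, fun k hk => ?_⟩
    · simp [cobip, SimpleGraph.fromRel_adj, hab]
    · simp [cobip, SimpleGraph.fromRel_adj, hab]
    · have h := hR k Set.univ (hasEPG_of_embedding (SimpleGraph.Embedding.induce Set.univ) hk)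
      simpa [Set.ncard_univ] using h
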